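import Pool.Agent.MWC.Stmts
import Pool.Agent.MWA.DefsP

/-!
# Block MWC, part B: the clauses and the assembly

Row files: import `Pool.Agent.MWC.StmtsB` and, for the checks `cA1`, `cB1`, .. (all of the form
`chk .. = true`), `Pool.Agent.Helper65_MWC.Checks` (namespace `Pool.Agent.MWC.H65`).

How to prove a clause.  Suppose that the conclusion fails.  (i) every bit of the list `N` of the
check is missing (`¬ HB r n β κ`): `J 2` by the last part of ARB, others by the arrows of ARB, or, as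
described in the docstring, by TYC: `TYC (k i j x x1 y)` means: the row TYC with these data; its table
hypothesis is `∀ κ ∈ tab r k x j, HB r n β κ`, where `tab r k x j` is computed by `decide`/`simp` to be the
list in brackets; `x ∈ vls r k` by `decide`.  (ii) `¬ Bt` for all elements of `NB`.  (iii) MST with the
check.  `[x; y]` stands for `Bt β k (rep x) (rep y) k`, `k + 1` the length of `x`; all words of a shape are
written without commas: `[11; 02]` is `Bt β 1 (rep [1,1]) (rep [0,2]) 1`.  `B1, B2 g, B3` are the three parts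
of BTL (`B1`: `[x; y]` holds if the last entry of `x` is `0`; `B2 g`: from `[x; y]` to `[x1; y1]` with the map
`g`, all four conditions by `decide`; `B3`: symmetry).  TYC and `B1` change the first type; use `B3` for
the second one.
-/

namespace Pool.Agent.MWC

open Pool.Agent.Helper14_MV Pool.Agent.Helper2_MV Pool.Agent.MVO Pool.Agent.MWL Pool.Agent.MWA

/-- exchange of two shapes in their last block -/
def BX (β : FIC) (k : ℕ) (x y : List ℕ) : Prop := Bt β k (rep x) (rep y) k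

/-- **CR0** (uses ARB, TYC, BTL, MST).  `x²y² ≈ y²x²`.
PROOF.  `BX β 0 [2] [2]` gives `R0 β` (take `e = fun _ => false`; `w2 0 .. = [0,0,1,1]`).  Suppose it fails; `NB` of
the check is `[(0,0,[2],[2])]`.  `r = false`: the check `cR0a`, `N = [J 2, E]`.  `E`: suppose `HB false n β E`.
TYC (`k = 1, i = 1, j = 1, x = [2,0], x1 = [2,2], y = [0,2]`; table `[E]`) and B1: `[22; 02]`; B2 with
`g = [0,0]` (`k1 = 0`): `[2; 2]`, contradiction.  `r = true`: the check `cR0b`, `N = [J 2, G]`; `G`: the same TYC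
(table `[G]`). -/
def Cr0Stmt : Prop := ∀ (r : Bool) (n : ℕ) (β : FIC), HypN r n β → R0 β

/-- **CAA** (uses ARB, TYC, BTL, MST).  The first two clauses of (a).
PROOF.  (1) Suppose neither.  Check `cA1`, `N = [G, J 2, E]`, `NB = [(1,1,[1,1],[2,2])]`.  `E`: TYC (`k = 1, i = 1,
j = 1, x = [2,0], x1 = [2,2], y = [1,1]`; table `[E]`) and B1: `[22; 11]`, B3.
(2) Suppose neither.  Check `cA2`, `N = [D 0, G, J 2, E, F]`, `NB = [(2,2,[0,1,1],[2,0,2])]`.  `G`: it gives `D 0`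
(ARB).  `F`: TYC (`k = 2, i = 2, j = 1, x = [2,0,2], x1 = [2,2,2], y = [0,1,1]`; table `[F]`); `[011; 222]` from
the hypothesis with B2, `g = [1,2]`.  `E`: it gives `F`. -/
def CaaStmt : Prop :=
  ∀ (n : ℕ) (β : FIC), HypN false n β →
    (HB false n β Bit.G ∨ BX β 1 [1, 1] [2, 2]) ∧
    (BX β 1 [1, 1] [2, 2] → HB false n β (Bit.D 0) ∨ BX β 2 [0, 1, 1] [2, 0, 2])

/-- **CAB** (uses ARB, TYC, BTL, MST).  The other two clauses of (a).
PROOF.  (1) Suppose neither.  Check `cA3`, `N = [J 3, J 2, G, E]`, `NB = [(1,1,[1,1],[0,2])]`.  `G`: TYC (`k = 1,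
i = 1, j = 0, x = [0,2], x1 = [2,2], y = [1,1]`; table `[G]`).  `E`: TYC (`k = 2, i = 2, j = 2, x = [0,2,0],
x1 = [0,2,2], y = [1,0,1]`; table `[E]`) and B1: `[022; 101]`; B2 with `g = [0,1,1]`: `[02; 11]`.
(2) Suppose neither.  Check `cA4`, `N = [J 3, J 2, E]`,
`NB = [(1,1,[1,1],[0,2]), (1,1,[1,1],[1,2]), (1,1,[1,1],[2,2])]`.  `[02; 11] ↔ [22; 11]` by TYC (`j = 0, x = [0,2]`;
table `[G]`); `HB (D 0)` by ARB; `[12; 11] ↔ [22; 11]` by TYC (`j = 0, x = [1,2], x1 = [2,2]`; table `[D 0]`); so all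
three fail.  `E`: TYC (`k = 1, j = 1, x = [2,0], x1 = [2,2], y = [1,1]`) and B1: `[22; 11]`, contradiction. -/
def CabStmt : Prop :=
  ∀ (n : ℕ) (β : FIC), HypN false n β →
    (BX β 1 [1, 1] [2, 2] → HB false n β (Bit.J 3) ∨ BX β 1 [1, 1] [0, 2]) ∧
    (HB false n β Bit.G → HB false n β (Bit.J 3) ∨ BX β 1 [1, 1] [0, 2])

/-- **CBA** (uses ARB, TYC, BTL, MST, CR0).  The three identities of (a').
PROOF.  `BX β 0 [2] [2]` from CR0 (`R0 β`: the two words are `[0,0,1,1]`, `[1,1,0,0]`).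
(1) Suppose not.  Check `cB1`, `N = [J 2, D 0]`, `NB = [(1,1,[2,1],[2,1])]`.  `D 0`: TYC (`k = 1, i = 1, j = 1,
x = [2,1], x1 = [2,2], y`; table `[D 0]`) for `y = [2,1]` and for `y = [2,2]` (with B3): `[21; 21] ↔ [22; 22]`;
`[22; 22]` from `[2; 2]` with B2, `g = [1]`.
(2) Suppose not.  Check `cB2`, `N = [J 2, D 0, E]`, `NB = [(1,1,[2,1],[0,2])]`.  `D 0`: TYC (`x = [2,1], x1 = [2,2],
j = 1, y = [0,2]`); `[22; 02]` from `[2; 2]` with B2, `g = [1]`.  `E`: TYC (`j = 0, x = [0,2], x1 = [2,2],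
y = [2,1]`; table `[E]`); `[22; 21]` from (1) with B2, `g = [0,1]`.
(3) Suppose not.  Check `cB3`, `N = [J 2, D 0, E]`, `NB = [(2,2,[2,0,1],[0,2,1])]`.  `D 0`: TYC (`k = 2, i = 2,
j = 2, x = [0,2,1], x1 = [0,2,2], y = [2,0,1]`; table `[D 0]`); `[201; 022]` from (2) with B2, `g = [0,2]`.  `E`:
TYC (`j = 0, x = [0,2,1], x1 = [2,2,1]`; table `[E]`); `[201; 221]` from (1) with B2, `g = [0,2]`. -/
def CbaStmt : Prop :=
  ∀ (n : ℕ) (β : FIC), HypN true n β →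
    BX β 1 [2, 1] [2, 1] ∧ BX β 1 [2, 1] [0, 2] ∧ BX β 2 [2, 0, 1] [0, 2, 1]

/-- **CBB** (uses ARB, TYC, BTL, MST).  Four clauses of (a').
PROOF.  (1) Suppose neither.  Check `cB4`, `N = [D 0, J 2, G]`, `NB = [(1,1,[1,1],[2,2])]`.  `G` gives `D 0`.
(2) Suppose neither.  Check `cB5`, `N = [D 0, J 2, G, E]`, `NB = [(1,1,[1,1],[0,2])]`.  `G` gives `D 0`.  `E`: TYC
(`k = 1, i = 1, j = 0, x = [0,2], x1 = [2,2], y = [1,1]`; table `[E]`).
(3) Suppose neither.  Check `cB6`, `N = [E, J 2, D 0]`, `NB = [(1,1,[1,1],[2,1])]`.  `D 0`: TYC (`j = 1, x = [2,1],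
x1 = [2,2], y = [1,1]`; table `[D 0]`).
(4) Suppose neither.  Check `cB7`, `N = [E, J 2, G]`, `NB = [(1,1,[1,1],[2,1]), (1,1,[1,1],[2,2])]`.  The same TYC:
`[22; 11]` fails too.  `G`: TYC (`j = 1, x = [2,0], x1 = [2,2], y = [1,1]`; table `[G]`) and B1: `[22; 11]`. -/
def CbbStmt : Prop :=
  ∀ (n : ℕ) (β : FIC), HypN true n β →
    (HB true n β (Bit.D 0) ∨ BX β 1 [1, 1] [2, 2]) ∧
    (BX β 1 [1, 1] [2, 2] → HB true n β (Bit.D 0) ∨ BX β 1 [1, 1] [0, 2]) ∧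
    (BX β 1 [1, 1] [2, 2] → HB true n β Bit.E ∨ BX β 1 [1, 1] [2, 1]) ∧
    (HB true n β (Bit.D 0) → HB true n β Bit.E ∨ BX β 1 [1, 1] [2, 1])

/-- **CBC** (uses ARB, TYC, BTL, MST).  Three clauses of (a').
PROOF.  (1) Suppose neither.  Check `cB8`, `N = [J 3, J 2, D 0]`, `NB = [(1,1,[1,1],[2,1])]`.  `D 0`: TYC (`k = 1,
i = 1, j = 1, x = [2,1], x1 = [2,2], y = [1,1]`; table `[D 0]`).
(2) Suppose neither.  Check `cB9`, `N = [J 3, J 2, G]`,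
`NB = [(1,1,[1,1],[2,1]), (1,1,[1,1],[2,2]), (1,1,[1,1],[0,2])]`.  The same TYC: `[22; 11]` fails; `[11; 02]` fails
(B2 with `g = [0,1]` would give `[11; 22]`).  `G`: TYC (`j = 1, x = [2,0], x1 = [2,2], y = [1,1]`; table `[G]`) and B1:
`[22; 11]`.
(3) Suppose neither.  Check `cB10`, `N = [J 3, J 2, G, E]`, `NB = [(1,1,[1,1],[0,2])]`.  `G`: TYC (`k = 2, i = 2,
j = 2, x = [0,2,0], x1 = [0,2,2], y = [1,0,1]`; table `[G]`) and B1: `[022; 101]`; B2 with `g = [0,1,1]`: `[02; 11]`.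
`E`: TYC (`k = 1, j = 0, x = [0,2], x1 = [2,2], y = [1,1]`; table `[E]`); `[11; 22]` from the hypothesis with
B2, `g = [0,1]`. -/
def CbcStmt : Prop :=
  ∀ (n : ℕ) (β : FIC), HypN true n β →
    (BX β 1 [1, 1] [2, 2] → HB true n β (Bit.J 3) ∨ BX β 1 [1, 1] [2, 1]) ∧
    (HB true n β (Bit.D 0) → HB true n β (Bit.J 3) ∨ BX β 1 [1, 1] [2, 1]) ∧
    (BX β 1 [1, 1] [2, 1] → HB true n β (Bit.J 3) ∨ BX β 1 [1, 1] [0, 2])

/-- **CBD** (uses ARB, TYC, BTL, MST).  Four clauses of (a').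
PROOF.  (1) Suppose neither.  Check `cB11`, `N = [J 3, J 2, D 0, E]`, `NB = [(2,2,[1,0,1],[0,2,1])]`.  `D 0`: TYC
(`k = 2, i = 2, j = 2, x = [0,2,1], x1 = [0,2,2], y = [1,0,1]`; table `[D 0]`); `[101; 022]` from `[11; 02]` with
B2, `g = [0,2]`.  `E`: TYC (`j = 0, x = [0,2,1], x1 = [2,2,1]`; table `[E]`); `[101; 221]` from `[11; 21]`, `g = [0,2]`.
(2) Suppose neither.  Check `cB12`, `N = [J 3, J 2, D 0]`, `NB = [(2,2,[2,0,1],[0,1,1])]`.  `D 0`: TYC (`k = 2, i = 2,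
j = 2, x = [2,0,1], x1 = [2,0,2], y = [0,1,1]`; table `[D 0]`); `[011; 202]` from `[11; 02]` with B2, `g = [1,2]`.
(3) Suppose neither.  Check `cB13`, `N = [D 1, D 0, E, F]`, `NB = [(3,3,[0,1,0,1],[2,0,2,1])]`.  `D 0` gives `D 1`.
`F`: TYC (`k = 3, i = 3, j = 1, x = [2,0,2,1], x1 = [2,2,2,1], y = [0,1,0,1]`; table `[F]`); `[0101; 2221]` from
the hypothesis with B2, `g = [1,3]`.  `E` gives `F`.
(4) Suppose neither.  Check `cB14`, `N = [D 1, D 0, J 2]`, `NB = [(1,1,[1,1],[2,1])]`.  `D 0` gives `D 1`. -/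
def CbdStmt : Prop :=
  ∀ (n : ℕ) (β : FIC), HypN true n β →
    (BX β 1 [1, 1] [2, 1] → BX β 1 [1, 1] [0, 2] →
      HB true n β (Bit.J 3) ∨ BX β 2 [1, 0, 1] [0, 2, 1]) ∧
    (BX β 1 [1, 1] [0, 2] → HB true n β (Bit.J 3) ∨ BX β 2 [2, 0, 1] [0, 1, 1]) ∧
    (BX β 1 [1, 1] [2, 1] → HB true n β (Bit.D 1) ∨ BX β 3 [0, 1, 0, 1] [2, 0, 2, 1]) ∧
    (HB true n β (Bit.D 1) ∨ BX β 1 [1, 1] [2, 1])

/-- **CLN** (uses KYR, TBR, ARB, MWL.TRN, MVO.FAA).  The translation to the words of MWA.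
PROOF.  `Ab` depends only on the blocks `0..k` (TRN (3)), `Bt` too (`asm_congr`; or `FC.ext`): the vectors
`rep [1,1]` and `v2 1 1`, .. agree.  (1) definitions: `HB false n β G = Ab n _ 1 (v2 0 2) 0` (`ba`, `bi`, `Bit.a`),
`HB false n β (J 3) = Ab n _ 2 (fun _ => 1) 2`, `HB false n β (D 0) = Ab n _ 1 (1,2) 0`.
(2) `HB true n β E = Ab n _ 1 (fun j => v2 2 0 (1 - j)) 0`, i.e. `(0,2)` absorbs in block 0;
`HB true n β (J 3) = Ab n _ 2 (1,1,1) 0`; TBR for `c = v3 1 1 1`, `k = 2`: the shape is `[1,1,1]`; `i = 1`: the table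
is `[J 3, D 1]`; `i = 2`: `[J 3, D 0]`.
(3) `HB true n β (D 0)`: `(2,1)` absorbs in block 1: `(2,1) ~ (2,1+2n)`, and `(2,1+2n) ~ (2,n+1)` if `n ≥ 1`.. : the
last part of KYR (`1 + 2n ≥ 2`, `n + 1 ≥ 2`, congruent mod `n`); this is `LR n`.
(4) `D0n`: TBR for `c = v2 1 2`, `r = true`: the shape is `[2,2]`, the table is empty.  `C4f` from
`Bt β 1 (1,1) (2,1) 1`: F5, F3 with `d = (2n - 1, 1)`: `Bt β 1 (1+2n, 2) (1,1) 1`; `(1,2) ~ (1+2n,2)` is `D0n`; F2, F5.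
`C4f` in the case `r = false`, `D 0`: `(1,2) ~ (1+2n, 2)`; F5, F3 with `d = (2n-1, 0)` from `(2,2)`, F2, F5. -/
def ClnStmt : Prop :=
  ∀ (n : ℕ) (β : FIC), Iso3 β → ClA β → 1 ≤ n →
    ((BX β 1 [1, 1] [0, 2] ↔ A1f β) ∧ (BX β 2 [0, 1, 1] [2, 0, 2] ↔ C2f β) ∧
      (BX β 2 [2, 0, 1] [0, 2, 1] ↔ Pf β) ∧ (BX β 3 [0, 1, 0, 1] [2, 0, 2, 1] ↔ Qf β) ∧
      (BX β 1 [1, 1] [2, 1] ↔ Cf β) ∧ (BX β 1 [1, 1] [2, 2] ↔ C5f β) ∧
      (BX β 2 [1, 0, 1] [0, 2, 1] ↔ B7f β) ∧ (BX β 2 [2, 0, 1] [0, 1, 1] ↔ B8f β)) ∧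
    ((HB false n β Bit.G ↔ Gn n β) ∧ (HB false n β (Bit.J 3) ↔ J3n n β 2) ∧
      (HB false n β (Bit.D 0) ↔ D0n n β) ∧ (HB true n β Bit.E ↔ Gn n β) ∧
      (HB true n β (Bit.J 3) ↔ J3n n β 0)) ∧
    (LRd n (FC.ofFIC β) →
      (HB true n β (Bit.J 3) → HB true n β (Bit.D 1) → J3n n β 1) ∧
      (HB true n β (Bit.J 3) → HB true n β (Bit.D 0) → J3n n β 2) ∧
      (HB true n β (Bit.D 0) → LR n (FC.ofFIC β)) ∧ D0n n β ∧ (Cf β → C4f β)) ∧
    (LR n (FC.ofFIC β) → D0n n β → C5f β → C4f β)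

/-- **NRA** (uses CR0, CAA, CAB, CLN).  Necessity above (a).
PROOF.  `R0` by CR0.  If `[11; 02]`: `SP3`.  Otherwise `HB false n β (J 3)`: if `HB G`: CAB (2); else `[11; 22]` by CAA
(1) and CAB (1).  If `HB G`: `SP1`.  Else `[11; 22]`; if `HB (D 0)`: `SP4` (CLN, last part); else `[011; 202]` by CAA
(2): `SP2`. -/
def NraStmt : Prop :=
  ∀ (n : ℕ) (β : FIC), HypN false n β → R0 β ∧ (SP1 n β ∨ SP2 n β ∨ SP3 β ∨ SP4 n β)

/-- **NDA** (uses CR0, CBA, CBB, CBC, CBD, CLN).  Necessity above (a').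
PROOF.  `R0` by CR0, `[201; 021]` by CBA.  Write `E, J 3, D 0, D 1` for `HB true n β ..`.
Case `J 3`.  Case `D 0`: CBB (4): `E`: `SP1` (`Gn`, `J3n 2` by CLN) with `LR n` (CLN); or `[11; 21]`: `SP4` with `LR n`
(`J3n 2`, `D0n`, `C4f` by CLN).  Case not `D 0`: `[11; 22]` (CBB (1)), `[11; 02]` (CBB (2)).  If `D 1`: CBB (3): `E`:
`SQ5`; or `[11; 21]`: `SQ4`.  If not `D 1`: `[11; 21]` (CBD (4)), `[0101; 2021]` (CBD (3)): `SQ3`.
Case not `J 3`: `[11; 21]`: if `D 0`, CBC (2); else `[11; 22]` (CBB (1)), CBC (1).  `[11; 02]` by CBC (3).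
`[101; 021]` by CBD (1), `[201; 011]` by CBD (2): `SQ7`. -/
def NdaStmt : Prop :=
  ∀ (n : ℕ) (β : FIC), HypN true n β →
    R0 β ∧ ((SQ3 n β ∨ SQ4 n β ∨ SQ5 n β ∨ SQ7 β) ∨
      (LR n (FC.ofFIC β) ∧ (SP1 n β ∨ SP4 n β)))

end Pool.Agent.MWC
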