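import Pool.Agent.MWC.Defs

/-!
# Block MWC: necessity above the bases (a) and (a'), arbitrary period (rows)

Every row: file `Pool/Agent/HelperNN_MWC/XXX.lean`, import `Pool.Agent.MWC.Stmts`, namespace
`Pool.Agent.MWC.HNN`, theorem `xxx (hypotheses = rows in uses, in this order) : XxxStmt`.
`RR β u v` is the congruence on lists (`Helper2_MV/Keep.lean`), `asm k B` the word with the blocks
`B 0, …, B k`, `mw k a` the one letter word, `w2 k a b e` the two letter word, `QT`, `GT`, `TExt`, `TLast`: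
`MVO/StmtsN.lean`.  MVO rows with the same proofs for words with `x²` an isoterm: WBL, LNN, GTB, GTN,
GTS, GTK (files `Helper*_MVO/`), they can be copied and adapted.
In the proofs `F0, F2, F3, F4, F5, F6` are the six parts of `MVO.FaaStmt` (in this order), `a ~ b` is
`(FC.ofFIC β).R k a b`, i.e. `L1 β k a b`, and `e_i` is a unit vector.
-/

namespace Pool.Agent.MWC

open Pool.Agent.Helper14_MV Pool.Agent.Helper2_MV Pool.Agent.MVO Pool.Agent.MWL

/-! ### general rows: Lemma N and the congruences of a set of pairs of types -/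

/-- **WBI** (uses nothing).  Words related to a word in blocks with the letters 0, 1, if `xyx` is an
isoterm.
PROOF.  (1) `RR β [0] (replicate j 0)` gives `j = 1`: multiply: `[0,1,0] ≈ 0^j 1 0^j`, `Iso3`.  `RR β []
(replicate j 0)` gives `j = 0` (`iso_nil`).  So for `RR β u v` and every letter `c`: `u.count c = 0 ↔
v.count c = 0` and `u.count c = 1 ↔ v.count c = 1` (`RR.filter` to `c`, rename `c` to `0`; both
directions by symmetry).  (2) `NC2 β` (`iso_ab`).  (3) Every simple letter `2..k+1` occurs exactly once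
in `v`, letters `> k+1` do not occur in `v`; `v.filter sep` is a permutation of `seps k` and
`β`-related to it, hence equal to it (`seps_keep` in `Helper6_MVO/SEQ.lean`, as in the row WBL);
`dec` (put `[]` for the blocks `> k`).  (4) The degrees: `count_asm` and (1). -/
def WbiStmt : Prop :=
  ∀ β : FIC, Iso3 β → ∀ (k : ℕ) (B : ℕ → List ℕ) (v : List ℕ),
    (∀ j ≤ k, ∀ c ∈ B j, c = 0 ∨ c = 1) → RR β (asm k B) v →
      ∃ B' : ℕ → List ℕ, v = asm k B' ∧ (∀ j, ∀ c ∈ B' j, c = 0 ∨ c = 1) ∧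
        ∀ c, (2 ≤ deg k (fun j => (B j).count c) ↔ 2 ≤ deg k (fun j => (B' j).count c))

/-- **LNI** (uses WBI).  LEMMA N if `xyx` is an isoterm.
PROOF.  The proof of the row LNN of MVO (`Helper92_MVO/LNN.lean`, docstring of `MVO.LnnStmt`) with WBI
instead of WBL.  Changes: in (2) a letter `t ≠ 0` of `φ(0) without 1` would be a simple letter of the
word `W without 1` (`K W`, WBI: the letters of `W without 1` are `0` and the simple letters `2..k+1`,
the latter occur exactly once), but it occurs at least twice, as `2 ≤ deg k1 a1`: impossible.  In (4)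
the degrees are `≥ 2` by WBI. -/
def LniStmt : Prop :=
  ∀ β : FIC, Iso3 β → Gath β → Rig β → ModF β → ∀ G1 G2 : FIC, β ≤ G1 → β ≤ G2 →
    ∀ (k : ℕ) (a a' b : ℕ → ℕ) (i : ℕ), 2 ≤ deg k a → 2 ≤ deg k a' → 2 ≤ deg k b → i ≤ k →
      Bt G1 k a b i → L1 G2 k a a' → Bt G1 k a' b i ∨ Bt G2 k a' b i

/-- **GTI** (uses WBI, MVO.NFA).
PROOF.  The proof of the row GTB of MVO (`Helper97_MVO/GTB.lean`) with WBI instead of WBL.  `QT k T` is
preserved by `β`: let `W ~β W'`, `QT W`, `W = asm k B`.  WBI: `W' = asm k B'`, letters 0, 1.  Types: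
`L1 β` for both letters (filter, rename), so `T` holds for the types of `W'` (closure), in particular
both letters have their last block `l` in `W` and in `W'`.  The last letter: `W ~β w2 k a b e` with
`e l = false` (NFA: same types, same last letter), and if the last one of the letters 0, 1 of `W'` were
0, `W' ~β w2 k a' b' e'` with `e' l = true`, `~β w2 k a b e'` (type change with `rr_ins`, or F2), so
`Ex β k a b e l`, and by NFA `Bt β k a b l`, contradiction. -/
def GtiStmt : Prop :=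
  ∀ β : FIC, Iso3 β → ClA β → ∀ (k l : ℕ) (T : (ℕ → ℕ) → (ℕ → ℕ) → Prop), TExt k T →
    TLast k l T → (∀ a b a' b', T a b → L1 β k a a' → L1 β k b b' → T a' b') →
      (∀ a b, T a b → ¬ Bt β k a b l) → β ≤ GT k T

/-- **SPG** (uses nothing).  Exchanges in `GT k T`.
PROOF.  `u = w2 k1 a b e`, `v = w2 k1 a b (flp e i)`, `W = m φ(u) q`, `W' = m φ(v) q`; let `QT W` (the
other direction is the same with `flp e i`), `W = asm k B` with types `(c, d)`.  If `a i = 0` or `b i = 0` or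
`φ(0) = []` or `φ(1) = []`: `W = W'`.  Every letter of `φ(0)` occurs at least twice in `W` (`2 ≤ deg k1 a`), so
it is 0 or 1 (a simple letter `2..k+1` occurs once in `asm k B`, other letters do not occur); the same for
`φ(1)`.  `W'` arises from `W` by exchanging the two adjacent factors `φ(0)^(a i)` and `φ(1)^(b i)`, which
contain only letters 0, 1 and so are in one block: `W' = asm k B'` with the same counts in every
block, so `T` holds for `W'` (`TExt`).  If a letter 0 or 1 occurs behind the two factors, the last letter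
of `W` and `W'` is the same.  Suppose not, and the last letter of `W'` is 0.  Let `f j` = the number of
simple letters of `asm k B` (letters `2..k+1`) in `m φ(2) .. φ(j+1)`; `BMap k1 k f`.  The two factors are in
block `f i`, and no letter 0, 1 is behind them.
If `e i = false`: `W = .. φ(0)^p φ(1)^q' ..`, so `φ(1)` ends with 1 and `φ(0)` ends with 0; so the last block
of `d` is `f i`, hence `f i = l` (`TLast`), and `psh k1 f a j ≤ c j`, `psh k1 f b j ≤ d j` for all `j ≤ k`
(count the letters 0 in the copies of `φ(0)`, the letters 1 in the copies of `φ(1)`): contradiction to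
the first part of the hypothesis.  If `e i = true`: `φ(0)` ends with 1, `φ(1)` ends with 0:
`psh k1 f a ≤ d`, `psh k1 f b ≤ c`: contradiction to the second part. -/
def SpgStmt : Prop :=
  ∀ (k l : ℕ) (T : (ℕ → ℕ) → (ℕ → ℕ) → Prop), TExt k T → TLast k l T →
    ∀ (k1 : ℕ) (a b : ℕ → ℕ) (i : ℕ), 2 ≤ deg k1 a → 2 ≤ deg k1 b → i ≤ k1 →
      (∀ f c d, BMap k1 k f → f i = l → T c d →
        ¬ ((∀ j ≤ k, psh k1 f a j ≤ c j) ∧ ∀ j ≤ k, psh k1 f b j ≤ d j) ∧
        ¬ ((∀ j ≤ k, psh k1 f b j ≤ c j) ∧ ∀ j ≤ k, psh k1 f a j ≤ d j)) →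
          Bt (GT k T) k1 a b i

/-- the condition `C` is closed under the insertion of `x^(2 n M)` which `a0 ≈ a0 + 2n e_i0` allows -/
def KCl (n k k0 i0 : ℕ) (a0 : ℕ → ℕ) (C : (ℕ → ℕ) → Prop) : Prop :=
  ∀ f, BMap k0 k f → ∀ c, (∀ j ≤ k, psh k0 f a0 j ≤ c j) → ∀ M, 1 ≤ M →
    (C c ↔ C (fun j => c j + if j = f i0 then 2 * n * M else 0))

/-- **KPG** (uses nothing).  One letter identities in `GT k (C × D)`.
PROOF.  `z = φ(0)`, `W = m φ(mw k0 a0) q`, `W' = m φ(mw k0 (a0 + 2n e_i0)) q`.  If `z = []`: equal.  Let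
`QT W` or `QT W'` hold; the letters of `z` occur at least twice in it (`2 ≤ deg k0 a0`), so they are 0 or
1.  `W'` arises from `W` by inserting the word `z^(2n)` in the block `f i0`, where `f j` = the number of the
simple letters `2..k+1` in `m φ(2) .. φ(j+1)`, `BMap k0 k f`; so both are words `asm k B`, `asm k B'` with
letters 0, 1.  Let `(c, d)` be the types of `W`, `α`, `γ` the numbers of 0 and 1 in `z`; the types of `W'` are
`c + 2nα e_(f i0)`, `d + 2nγ e_(f i0)`.  If `α = 0` the first type is unchanged; if `α ≥ 1` then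
`psh k0 f a0 ≤ c` and `C` holds for both or for none (`KCl` with `M = α`); the same for `d`, `γ`, `D`.  The
last copy of `z` stands directly in front of `q` in both words (`1 ≤ a0 k0`), so the last one of the
letters 0, 1 is the last one of `z q` in both. -/
def KpgStmt : Prop :=
  ∀ (n k : ℕ) (C D : (ℕ → ℕ) → Prop), (∀ c c', (∀ j ≤ k, c j = c' j) → C c → C c') →
    (∀ c c', (∀ j ≤ k, c j = c' j) → D c → D c') → ∀ (k0 i0 : ℕ) (a0 : ℕ → ℕ), i0 ≤ k0 →
      2 ≤ deg k0 a0 → 1 ≤ a0 k0 → KCl n k k0 i0 a0 C → KCl n k k0 i0 a0 D →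
        L1 (GT k (fun c d => C c ∧ D d)) k0 a0 (ad n a0 i0)

/-! ### the one letter lattice in both cases -/

/-- **KYR** (uses MWL.TRN, MWL.KEY, MWL.ABS, MWL.REV, MWL.NDF).  Related vectors.
PROOF.  `ND (FC.ofFIC β)` by NDF (`Iso3`: `[0,1] ≈ [1,0]` is excluded by `iso_ab`; `[0] ≈ 0^j`, `j ≠ 1`: multiply:
`[0,1,0] ≈ 0^j 1 0^j`).  `r = false`: KEY, TRN (1), ABS (second part; `Hv` holds for entries `≥ 2`).
`r = true`: let `R'` be the reversed congruence (REV); `LR n R'` (the reverse of `sg 0 2` on the block 0 is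
itself, `(2,1)`, `(2,n+1)` are the reverses of `(1,2)`, `(n+1,2)`), `ND R'`; `Ab n R k c i` iff `Ab n R' k`
`(fun j => c (k - j)) (k - i)` for `i ≤ k` (REV and `FC.ext`); so everything follows from the case
`false` for `R'` and the reversed vectors.  Third part: if `deg k c' ≤ 1`, then `ND` and symmetry give
`c' = c` on `0..k`. -/
def KyrStmt : Prop :=
  ∀ (r : Bool) (n : ℕ) (β : FIC), Iso3 β → LRr r n (FC.ofFIC β) →
    (∀ (k : ℕ) (c c' : ℕ → ℕ), L1 β k c c' →
      (∀ i ≤ k, ¬ Ab n (FC.ofFIC β) k c i → c i = c' i) ∧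
      (∀ i ≤ k, Ab n (FC.ofFIC β) k c i ↔ Ab n (FC.ofFIC β) k c' i) ∧
      (2 ≤ deg k c → 2 ≤ deg k c')) ∧
    ∀ (k : ℕ) (a b : ℕ → ℕ), (∀ j ≤ k, a j = b j ∨ (2 ≤ a j ∧ 2 ≤ b j ∧ a j ≡ b j [MOD n])) →
      L1 β k a b

/-- **TBR** (uses MWL.TRN, MWL.HVP, MWL.TA1, MWL.TA2, MWL.REV).  The table of absorption.
PROOF.  `r = false`: `HB false n β κ` is `Has n (FC.ofFIC β) κ`.  Let `s = shp false k c`.  Compare `tabF s i` with
HVP, TA1, TA2: `s i = 2` iff `Hv c i`; `s i = 0` iff `c i = 0`; `(s.take i).any (· = 2)` iff some `p < i` has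
`2 ≤ c p` (a heavy block `p < i` has an entry `≥ 2` in a block `≤ p`); if there is no such `p` and `s i ≠ 2`,
`(s.drop (i+1)).any (· = 2)` iff some `q`, `i < q ≤ k`, has `2 ≤ c q`; `lbs s i = lb c i`; if no entry is
`≥ 2`: `s.sum = deg k c`, and `c i` is the last non-empty block or not as in TA2; `ggl l` is the list of
`GG l`.  TA2 needs `2 ≤ deg k c`.
`r = true`: REV as in KYR: `Ab n R k c i ↔ Ab n R' k (rev c) (k - i)` and `HB true n β κ ↔ Has n R' κ` (the
base vector is reversed), `shp true k c = (shp false k (rev c)).reverse`. -/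
def TbrStmt : Prop :=
  ∀ (r : Bool) (n : ℕ) (β : FIC), LRr r n (FC.ofFIC β) → ∀ (k : ℕ) (c : ℕ → ℕ) (i : ℕ), i ≤ k →
    2 ≤ deg k c → (Ab n (FC.ofFIC β) k c i ↔ ∀ κ ∈ tab r k (shp r k c) i, HB r n β κ)

/-- **ARB** (uses MWL.ARR, MWL.REV).  The arrows between the bits.
PROOF.  `r = false`: ARR.  `r = true`: ARR for the reversed congruence `R'` (REV; `LR n R'` as in KYR,
`HB true n β κ ↔ Has n R' κ` by REV and `FC.ext`).  Last part: `HB r n β (J 2)` is
`L1 β 1 (1,1) (1,1+2n)` or `L1 β 1 (1,1) (1+2n,1)`; rename the simple letter 2 to 1: `[0,1,0]` is related to a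
longer word, against `Iso3` (`n ≥ 1`). -/
def ArbStmt : Prop :=
  ∀ (r : Bool) (n : ℕ) (β : FIC), LRr r n (FC.ofFIC β) →
    (HB r n β Bit.E → HB r n β Bit.F) ∧ (HB r n β Bit.G → HB r n β Bit.F) ∧
    (HB r n β Bit.G → HB r n β (Bit.D 0)) ∧
    (∀ l, HB r n β (Bit.D l) → HB r n β (Bit.D (l + 1))) ∧
    (∀ q, 2 ≤ q → HB r n β (Bit.J q) → HB r n β (Bit.J (q + 1)) ∧ HB r n β (Bit.D (q - 1))) ∧
    (Iso3 β → ¬ HB r n β (Bit.J 2))

/-! ### shapes -/

/-- **SHF** (uses nothing).  Facts on shapes.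
PROOF.  Let `s = shp r k c`; `rep s j` for `j ≤ k` is the `j`-th entry of the `List.map`
(`List.getD`, `List.getElem_map`, `List.getElem_range`); call a block `j ≤ k` heavy if `c j ≠ 0` and
some `p ≤ j` (`r = true`: `p ≥ j`), `p ≤ k`, has `2 ≤ c p`; `rep s j` is `0` if `c j = 0`, `2` if `j` is heavy, `1` else
(then `c j = 1`).
(b) two non-empty blocks, or an entry `≥ 2`, which is written `2`; conversely an entry `2` of `s` gives an
entry `≥ 2` of `c`.  (c) `shp r k (rep s) = s` is (f) for `f = id`; `s ∈ lsts 3 (k + 1)` (length `k+1`,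
entries `< 3`; induction), (b).  (d) a heavy block stays heavy.  (e) clear.
(f) both are `0` in block `j` iff all blocks in the fibre are empty.  Heavy: let `psh k f c p ≥ 2`; either
there are two non-empty blocks `i` with `f i = p`, then `psh k f (rep s) p ≥ 2`; or one with `c i ≥ 2`, then
`rep s i = 2`.  Conversely `psh k f (rep s) p ≥ 2`: two non-empty blocks, or one block `i` with `rep s i = 2`:
some `i' ≤ i` (`≥ i`) has `2 ≤ c i'`, and `f i' ≤ f i` (`≥`): `psh k f c (f i') ≥ 2`, and `f i'` is on the right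
side of `p`.  (g) the entry `i` is `≥ 2` in both vectors; in the other blocks the same argument as in (f).
(h) `sp k c` is the set of the non-empty blocks; `Finset.max_eq_..`. -/
def ShfStmt : Prop :=
  ∀ (r : Bool) (k : ℕ) (c : ℕ → ℕ),
    ((shp r k c).length = k + 1 ∧ ∀ j ≤ k, (rep (shp r k c) j = 0 ↔ c j = 0) ∧
      rep (shp r k c) j ≤ 2 ∧ (rep (shp r k c) j = 1 → c j = 1) ∧
      (2 ≤ c j → rep (shp r k c) j = 2)) ∧
    (2 ≤ deg k c ↔ 2 ≤ (shp r k c).sum) ∧
    (2 ≤ deg k c → shp r k c ∈ vls r k) ∧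
    (∀ c' : ℕ → ℕ, (∀ j ≤ k, c j ≤ c' j) → les k (shp r k c) (shp r k c') = true) ∧
    (∀ c' : ℕ → ℕ, (∀ j ≤ k, c j = c' j) → shp r k c = shp r k c') ∧
    (∀ (k' : ℕ) (f : ℕ → ℕ), BMap k k' f →
      shp r k' (psh k f c) = shp r k' (psh k f (rep (shp r k c)))) ∧
    (∀ i ≤ k, ∀ M, 2 ≤ M →
      shp r k (fun j => c j + if j = i then M else 0) = hv2 r k i (shp r k c)) ∧
    (∀ i ≤ k, ((sp k c).max = (i : WithBot ℕ) ↔ c i ≠ 0 ∧ ∀ j ≤ k, i < j → c j = 0))

/-- **BMP** (uses nothing).  The list of the order preserving maps.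
PROOF.  `lsts q m` is the list of all lists of length `m` with entries `< q` (induction on `m`).
(1) `g = (List.range (k1 + 1)).map f`.  (2) `rep g` is monotone step by step, and all entries are `≤ k`.
(3) `pss` is the list sum over `List.range (k1 + 1)`, `psh` the `Finset` sum over
`Finset.range (k1 + 1)` (`Finset.sum_range`-lemmas or induction on `k1`), `Nat.beq` is `=`. -/
def BmpStmt : Prop :=
  (∀ (k1 k : ℕ) (f : ℕ → ℕ), BMap k1 k f → ∃ g ∈ mps k1 k, ∀ j ≤ k1, rep g j = f j) ∧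
  (∀ (k1 k : ℕ), ∀ g ∈ mps k1 k, BMap k1 k (rep g)) ∧
  (∀ (k1 : ℕ) (g : List ℕ) (f a : ℕ → ℕ) (j : ℕ), (∀ i ≤ k1, rep g i = f i) →
    pss k1 g a j = psh k1 f a j)

/-! ### the checks are correct -/

/-- **CLR** (uses KYR, TBR, SHF).  Closed sets of shapes.
PROOF.  Let `s = shp r k c ∈ C`, `t = shp r k c'`.  `2 ≤ deg k c'` (KYR), `t ∈ vls r k` (SHF).  Suppose `t ∉ C`; `clo`
gives `sep r k P N s t`, so there is `i ≤ k` with one of: (i) `rep s i ≠ rep t i` and `tab s i` or `tab t i`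
contains a bit of `N`: by TBR `c` or `c'` does not absorb at `i`, hence both do not (KYR), `c i = c' i` (KYR);
`rep s i = c i` and `rep t i = c' i` because otherwise the block is heavy, `rep s i = 2`, then `tab s i = []`
(both cases of `r`: entry of the reversed list) and `c` absorbs by TBR; contradiction.
(ii) all bits of `tab s i` are in `P`: `c` absorbs at `i`; `tab t i` contains a bit of `N`: `c'` does not;
contradiction to KYR.  (iii) the same with `s`, `t` exchanged. -/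
def ClrStmt : Prop :=
  ∀ (r : Bool) (n : ℕ) (β : FIC), Iso3 β → LRr r n (FC.ofFIC β) →
    ∀ (k : ℕ) (P N : List Bit) (C : List (List ℕ)), clo r k P N C = true →
      (∀ κ ∈ P, HB r n β κ) → (∀ κ ∈ N, ¬ HB r n β κ) → ∀ c c' : ℕ → ℕ, 2 ≤ deg k c →
        shp r k c ∈ C → L1 β k c c' → shp r k c' ∈ C

/-- **KPR** (uses SHF, BMP).  Sets of shapes which are closed under `κ`.
PROOF.  BMP: `g ∈ mps κ.k k` with `rep g = f` on `0..κ.k`; `psl r κ.k k g (ba r κ)` is the shape of
`psh κ.k f (ba r κ)`, which is `≤` the shape `s` of `c` (SHF (d)); `s ∈ vls r k` (SHF (c)); `bi r κ ≤ κ.k` (for all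
bits).  So `kap` gives `s ∈ C ↔ hv2 r k (f (bi r κ)) s ∈ C`, and `hv2 ..` is the shape of the second vector
(SHF (g), `M := 2 n M ≥ 2`). -/
def KprStmt : Prop :=
  ∀ (r : Bool) (n k : ℕ) (κ : Bit) (C : List (List ℕ)), 1 ≤ n → kap r k κ C = true →
    ∀ f, BMap κ.k k f → ∀ c : ℕ → ℕ, 2 ≤ deg k c → (∀ j ≤ k, psh κ.k f (ba r κ) j ≤ c j) →
      ∀ M, 1 ≤ M → (shp r k c ∈ C ↔
        shp r k (fun j => c j + if j = f (bi r κ) then 2 * n * M else 0) ∈ C)

/-- **SPR** (uses SHF, BMP).  PROOF.  BMP: `g ∈ mps k k`, `rep g = f` on `0..k`, `rep g i = i`.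
`psl r k k g (rep x)` is the shape of `psh k f (rep (shp r k a))`, by SHF (f) this is the shape of `psh k f a`;
if `psh k f a ≤ c` on `0..k` then `les` holds for the shapes (SHF (d)); the same for `b` and for `d`. -/
def SprStmt : Prop :=
  ∀ (r : Bool) (k i : ℕ) (x y : List ℕ) (C D : List (List ℕ)), sup r k i x y C D = true → i ≤ k →
    ∀ a b c d : ℕ → ℕ, shp r k a = x → shp r k b = y → shp r k c ∈ C → shp r k d ∈ D →
      ∀ f, BMap k k f → f i = i →
        ¬ ((∀ j ≤ k, psh k f a j ≤ c j) ∧ ∀ j ≤ k, psh k f b j ≤ d j) ∧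
        ¬ ((∀ j ≤ k, psh k f b j ≤ c j) ∧ ∀ j ≤ k, psh k f a j ≤ d j)

/-- **BMN** (uses MVO.FAA, KYR, SHF).  Monotony of the exchanges, in terms of shapes.
PROOF.  F4: `Bt β k1 c1 d1 i1` with `c1 = psh k f c`, `d1 = psh k f d`; the last block of `c1`, `d1` is `i1`
(`f` is monotone), the degrees are `≥ 2`.  Let `e j = 0` if `rep x j = 0`, `e j = 1 - c1 j` if `rep x j = 1`,
`e j = rep x j + (n - 1) * c1 j` if `rep x j ≥ 2`.  For `j ≤ k1`: if `rep x j = 0` the shape of `c1` is `0` at `j`, so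
`c1 j = 0`; if `rep x j = 1` it is `≤ 1`, so `c1 j ≤ 1` and `c1 j + e j = 1`; if `rep x j ≥ 2`:
`c1 j + e j = rep x j + n * c1 j`.  So `c1 + e` and `rep x` satisfy the hypothesis of the last part of KYR:
`c1 + e ~ rep x`; the same for `d1`, `y`.  F3, F2 (for `rep x`), F5, F2, F5.  (F3 needs the last blocks of
`c1`, `d1` and the degrees.) -/
def BmnStmt : Prop :=
  ∀ (r : Bool) (n : ℕ) (β : FIC), Iso3 β → ClA β → LRr r n (FC.ofFIC β) →
    ∀ (k k1 i i1 : ℕ) (c d f : ℕ → ℕ) (x y : List ℕ), 2 ≤ deg k c → 2 ≤ deg k d → i ≤ k →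
      (sp k c).max = (i : WithBot ℕ) → (sp k d).max = (i : WithBot ℕ) → BMap k k1 f → f i = i1 →
        les k1 (shp r k1 (psh k f c)) x = true → les k1 (shp r k1 (psh k f d)) y = true →
          Bt β k c d i → Bt β k1 (rep x) (rep y) i1

/-- **BEL** (uses SHF, BMP, BMN, MVO.FAA).  PROOF.  `bel` for the shapes of `c`, `d` gives `q ∈ NB` and
`g ∈ mps k q.1`; `f = rep g` (BMP (2)), `f i = q.2.1`; `psl r k q.1 g (rep (shp c))` is the shape of
`psh k f (rep (shp c))`, by SHF (f) the shape of `psh k f c`.  If the first alternative holds: BMN gives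
`Bt β q.1 (rep q.2.2.1) (rep q.2.2.2) q.2.1`, a contradiction.  Second alternative: F5 and BMN. -/
def BelStmt : Prop :=
  ∀ (r : Bool) (n : ℕ) (β : FIC), Iso3 β → ClA β → LRr r n (FC.ofFIC β) →
    ∀ (k i : ℕ) (NB : List (ℕ × ℕ × List ℕ × List ℕ)) (C D : List (List ℕ)), i ≤ k →
      bel r k i NB C D = true → (∀ q ∈ NB, ¬ Bt β q.1 (rep q.2.2.1) (rep q.2.2.2) q.2.1) →
        ∀ c d : ℕ → ℕ, 2 ≤ deg k c → 2 ≤ deg k d → (sp k c).max = (i : WithBot ℕ) →
          (sp k d).max = (i : WithBot ℕ) → shp r k c ∈ C → shp r k d ∈ D → ¬ Bt β k c d i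

/-- **MST** (uses MWL.TRN, MVO.GAA, MVO.RGA, MVO.GTN, LNI, GTI, SPG, KPG, SHF, BMP, CLR, KPR, SPR, BEL).
The master theorem: a clause is a finite check.
PROOF.  `n ≥ 1` (`LRr`).  `a' = rep x'`, `b = rep y`, `j0 = rep f0 (bi r κ)`, `a = ad n a' j0`,
`T1 c d := shp r k c ∈ C1 ∧ shp r k d ∈ D1`, `T2` the same with `C2`, `D2`; `Gi = GT k Ti`.
(1) `TExt`: SHF (e).  `TLast k i Ti`: `lst`, SHF (b), (a), (h).
(2) `Ti` is closed under `β`: CLR.  (3) no exchange of `β` in `Ti`: BEL.  (4) GTI: `β ≤ G1`, `β ≤ G2`.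
(5) `Bt G1 k a b i`: SPG with `k1 = k`; the shape of `a` is `hv2 r k j0 x'` (SHF (g), `M = 2n`; the shape of
`a'` is `x'` because `x' ∈ vls r k`), the shape of `b` is `y`; SPR.
(6) `L1 G2 k a' a`: KPG for `k0 = κ.k`, `i0 = bi r κ`, `a0 = ba r κ`: `KCl` by KPR (`2 ≤ deg k c` because
`deg k (psh ..) = deg κ.k (ba r κ) ≥ 2` and `psh .. ≤ c`); this is `Ab n (FC.ofFIC G2) κ.k (ba r κ) (bi r κ)`;
TRN (4) with `f = rep f0` (BMP (2)), TRN (2) with the vector `a' - psh κ.k f (ba r κ)` (it is `≥ 0`: the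
check with `pss`, BMP (3)), TRN (3).
(7) LNI (`Gath`, `Rig` by GAA, RGA) gives `Bt G1 k a' b i` or `Bt G2 k a' b i`; both are false by GTN (`T1 a' b`,
`T2 a' b`). -/
def MstStmt : Prop :=
  ∀ (r : Bool) (n : ℕ) (β : FIC), HypN r n β → ∀ (k i : ℕ) (P N : List Bit) (κ : Bit)
    (f0 : List ℕ) (NB : List (ℕ × ℕ × List ℕ × List ℕ)) (x' y : List ℕ)
    (C1 D1 C2 D2 : List (List ℕ)), chk r k i P N κ f0 NB x' y C1 D1 C2 D2 = true →
      (∀ μ ∈ P, HB r n β μ) → (∀ μ ∈ N, ¬ HB r n β μ) →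
        (∀ q ∈ NB, ¬ Bt β q.1 (rep q.2.2.1) (rep q.2.2.2) q.2.1) → False

/-- **TYC** (uses MVO.FAA, KYR, TBR, SHF).  Change of a type in a block where it absorbs.
PROOF.  Let `z = ad n (rep x) j`.  TBR (the shape of `rep x` is `x`) gives `rep x ~ z`; so
`Bt β k (rep x) b i ↔ Bt β k z b i` with `b = rep y` (F2).  `z` and `rep x1` have the same support.  If the last
blocks of `z` and `b` are not both `i`: `Bt β k z b i` and `Bt β k (rep x1) b i` both hold (F0).  Otherwise: `→`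
F3 with the vector `e` which is `0` off `j` and `e j = 2 + (n-1) * z j`, so `z j + e j = 2 + n * z j`:
`z + e ~ rep x1` (last part of KYR), F2.  `←`: F3 for `rep x1` with `e j = rep x j + 2n - 2`, `0` else:
`rep x1 + e = z` on `0..k`. -/
def TycStmt : Prop :=
  ∀ (r : Bool) (n : ℕ) (β : FIC), Iso3 β → ClA β → LRr r n (FC.ofFIC β) →
    ∀ (k i j : ℕ) (x x1 y : List ℕ), i ≤ k → j ≤ k → x ∈ vls r k → y ∈ vls r k →
      (∀ κ ∈ tab r k x j, HB r n β κ) → (∀ t ≤ k, rep x1 t = if t = j then 2 else rep x t) →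
        (Bt β k (rep x) (rep y) i ↔ Bt β k (rep x1) (rep y) i)

/-- **BTL** (uses MVO.FAA, BMN, SHF).  The rules for exchanges of shapes, in the form of checks.
PROOF.  (1) F0.  (2) BMN for `c = rep x`, `d = rep y` (the last blocks of `x`, `y` are `i` by `lst`), `f = rep g`
(`g ∈ mps k k1` gives `BMap`: the entries are `≤ k1` and increasing; `psl` is the shape of `psh`, by
`Finset.sum` over `range`).  (3) F5. -/
def BtlStmt : Prop :=
  ∀ (r : Bool) (n : ℕ) (β : FIC), Iso3 β → ClA β → LRr r n (FC.ofFIC β) →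
    (∀ (k i : ℕ) (x y : List ℕ), i ≤ k → x ∈ vls r k → y ∈ vls r k → rep x i = 0 →
      Bt β k (rep x) (rep y) i) ∧
    (∀ (k k1 i i1 : ℕ) (x y x1 y1 g : List ℕ), g ∈ mps k k1 → i ≤ k → rep g i = i1 →
      x ∈ vls r k → y ∈ vls r k → lst k i [x] = true → lst k i [y] = true → les k1 (psl r k k1 g (rep x)) x1 = true →
        les k1 (psl r k k1 g (rep y)) y1 = true → Bt β k (rep x) (rep y) i →
          Bt β k1 (rep x1) (rep y1) i1) ∧
    (∀ (k i : ℕ) (x y : List ℕ), Bt β k (rep x) (rep y) i → Bt β k (rep y) (rep x) i)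

end Pool.Agent.MWC
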