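import Pool.Agent.MWL.Stmts
import Pool.Agent.MVO.StmtsN

/-!
# Block MWC, part A: necessity above the bases (a) and (a') (definitions)

Full answer to MP_23468a_al, `xyx` an isoterm.  Base (a): `ClA` (identities `s1`, `s2`), `x²y² ≈ y²x²`
(`R0`), `x² ≈ x^(n+2)` and `R`: `x²tx ≈ x²tx^(n+1)`; base (a'): the dual `xtx² ≈ x^(n+1)tx²` instead of `R`.
The parameter `r : Bool` is `false` for (a) and `true` for (a').

A shape is a list of length `k + 1` with entries `0`, `1`, `2`: `2` stands for a heavy block.
-/

namespace Pool.Agent.MWC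

open Pool.Agent.Helper14_MV Pool.Agent.Helper2_MV Pool.Agent.MVO Pool.Agent.MWL

deriving instance DecidableEq for Pool.Agent.MWL.Bit

/-- the vector of a shape (or the map of a list) -/
def rep (s : List ℕ) : ℕ → ℕ := fun j => s.getD j 0

/-- the shape of a vector: an entry which is not `0` is written `2` if a block before it or this block
(`r = true`: behind it or this block) has at least two letters, and `1` otherwise -/
def shp (r : Bool) (k : ℕ) (c : ℕ → ℕ) : List ℕ :=
  (List.range (k + 1)).map (fun j => if c j = 0 then 0 else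
    if (List.range (k + 1)).any (fun p => (if r then Nat.ble j p else Nat.ble p j) && Nat.ble 2 (c p))
      then 2 else 1)

/-- number of non-empty blocks before `i` -/
def lbs (s : List ℕ) (i : ℕ) : ℕ := ((s.take i).filter (fun x => !(Nat.beq x 0))).length

/-- the bits of `GG l` -/
def ggl : ℕ → List Bit
  | 0 => [Bit.G]
  | l + 1 => [Bit.D l, Bit.F]

/-- the bits which say that a vector of the shape `s` absorbs in block `i` (case `R`) -/
def tabF (s : List ℕ) (i : ℕ) : List Bit :=
  if s.getD i 0 = 2 then [] else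
  if s.getD i 0 = 0 then
    (if (s.take i).any (fun x => Nat.beq x 2) then
      (if (s.drop (i + 1)).any (fun x => !(Nat.beq x 0)) then [Bit.F] else [Bit.E])
    else if (s.drop (i + 1)).any (fun x => Nat.beq x 2) then ggl (lbs s i)
    else if (s.drop (i + 1)).any (fun x => !(Nat.beq x 0)) then Bit.J s.sum :: ggl (lbs s i)
    else [Bit.J s.sum, Bit.E])
  else if (s.drop (i + 1)).any (fun x => Nat.beq x 2) then [Bit.D (lbs s i)]
  else [Bit.J s.sum, Bit.D (lbs s i)]

/-- the same for both cases -/
def tab (r : Bool) (k : ℕ) (s : List ℕ) (i : ℕ) : List Bit :=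
  if r then tabF s.reverse (k - i) else tabF s i

/-- the base vector of a bit, reversed in the case `r = true` -/
def ba (r : Bool) (β : Bit) : ℕ → ℕ := fun j => if r then β.a (β.k - j) else β.a j

/-- the block where it absorbs -/
def bi (r : Bool) (β : Bit) : ℕ := if r then β.k - β.i else β.i

/-- `ρ` has the bit -/
def HB (r : Bool) (n : ℕ) (ρ : FIC) (β : Bit) : Prop := Ab n (FC.ofFIC ρ) β.k (ba r β) (bi r β)

/-- `x² ≈ x^(n+2)` and `x t x² ≈ x^(n+1) t x²` -/
structure LRd (n : ℕ) (R : FC) : Prop where
  pos : 1 ≤ n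
  per : R.R 0 (sg 0 2) (sg 0 (n + 2))
  rr : R.R 1 (v2 1 2) (v2 (n + 1) 2)

/-- the identities of the base for one letter -/
def LRr (r : Bool) (n : ℕ) (R : FC) : Prop := if r then LRd n R else LR n R

/-- the hypotheses of this block -/
structure HypN (r : Bool) (n : ℕ) (β : FIC) : Prop where
  iso : Iso3 β
  cl : ClA β
  md : ModF β
  lr : LRr r n (FC.ofFIC β)

/-! ### shapes -/

/-- all lists of length `m` with entries `< q` -/
def lsts (q : ℕ) : ℕ → List (List ℕ)
  | 0 => [[]]
  | m + 1 => (lsts q m).flatMap (fun l => (List.range q).map (fun x => x :: l))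

/-- the shapes of vectors on `0..k` with at least two letters -/
def vls (r : Bool) (k : ℕ) : List (List ℕ) :=
  (lsts 3 (k + 1)).filter (fun s => decide (shp r k (rep s) = s) && Nat.ble 2 s.sum)

/-- the order preserving maps from `0..k1` to `0..k` -/
def mps (k1 k : ℕ) : List (List ℕ) :=
  (lsts (k + 1) (k1 + 1)).filter (fun f => (List.range k1).all (fun i => Nat.ble (rep f i) (rep f (i + 1))))

/-- the image of a vector under a map given by a list -/
def pss (k1 : ℕ) (f : List ℕ) (a : ℕ → ℕ) : ℕ → ℕ :=
  fun j => ((List.range (k1 + 1)).map (fun i => if Nat.beq (rep f i) j then a i else 0)).sum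

/-- the shape of the image of a vector -/
def psl (r : Bool) (k1 k : ℕ) (f : List ℕ) (a : ℕ → ℕ) : List ℕ := shp r k (pss k1 f a)

/-- write `2` in block `j` -/
def hv2 (r : Bool) (k j : ℕ) (s : List ℕ) : List ℕ :=
  shp r k (fun t => if Nat.beq t j then 2 else rep s t)

/-- `s ≤ t` in every entry -/
def les (k : ℕ) (s t : List ℕ) : Bool := (List.range (k + 1)).all (fun j => Nat.ble (rep s j) (rep t j))

/-- a bit of the list is missing -/
def abn (N L : List Bit) : Bool := L.any (fun β => decide (β ∈ N))

/-- all bits of the list are there -/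
def prs (P L : List Bit) : Bool := L.all (fun β => decide (β ∈ P))

/-- if the bits of `P` are there and the bits of `N` are missing, no vector of the shape `s` is related to
a vector of the shape `t` -/
def sep (r : Bool) (k : ℕ) (P N : List Bit) (s t : List ℕ) : Bool :=
  (List.range (k + 1)).any (fun i =>
    (!(Nat.beq (rep s i) (rep t i)) && (abn N (tab r k s i) || abn N (tab r k t i))) ||
    (prs P (tab r k s i) && abn N (tab r k t i)) || (prs P (tab r k t i) && abn N (tab r k s i)))

/-- the set `C` of shapes is closed -/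
def clo (r : Bool) (k : ℕ) (P N : List Bit) (C : List (List ℕ)) : Bool :=
  C.all (fun s => (vls r k).all (fun t => decide (t ∈ C) || sep r k P N s t))

/-- the set `C` of shapes is closed under the bit `κ` -/
def kap (r : Bool) (k : ℕ) (κ : Bit) (C : List (List ℕ)) : Bool :=
  (mps κ.k k).all (fun f => (vls r k).all (fun s =>
    !(les k (psl r κ.k k f (ba r κ)) s) ||
      (decide (s ∈ C) == decide (hv2 r k (rep f (bi r κ)) s ∈ C))))

/-- no pair of `C × D` is above the pair `(x, y)` with the last block `i` -/
def sup (r : Bool) (k i : ℕ) (x y : List ℕ) (C D : List (List ℕ)) : Bool :=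
  (mps k k).all (fun f => !(Nat.beq (rep f i) i) || C.all (fun c => D.all (fun d =>
    !(les k (psl r k k f (rep x)) c && les k (psl r k k f (rep y)) d) &&
    !(les k (psl r k k f (rep y)) c && les k (psl r k k f (rep x)) d))))

/-- every pair of `C × D` is below a pair of `NB` (elements `(k', i', x, y)`) -/
def bel (r : Bool) (k i : ℕ) (NB : List (ℕ × ℕ × List ℕ × List ℕ)) (C D : List (List ℕ)) : Bool :=
  C.all (fun c => D.all (fun d => NB.any (fun q => (mps k q.1).any (fun f =>
    Nat.beq (rep f i) q.2.1 &&
    ((les q.1 (psl r k q.1 f (rep c)) q.2.2.1 && les q.1 (psl r k q.1 f (rep d)) q.2.2.2) ||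
    (les q.1 (psl r k q.1 f (rep d)) q.2.2.1 && les q.1 (psl r k q.1 f (rep c)) q.2.2.2))))))

/-- all shapes of `C` have at least two letters and the last block `i` -/
def lst (k i : ℕ) (C : List (List ℕ)) : Bool :=
  C.all (fun c => Nat.ble 2 c.sum && !(Nat.beq (rep c i) 0) &&
    (List.range (k + 1)).all (fun j => Nat.ble j i || Nat.beq (rep c j) 0))

/-- the check of a clause: `P` bits which are there, `N` bits which are missing, `κ` the bit of the
clause, `x'`, `y` the pair of `s'`, `f0` the place where `x'` uses `κ`, `C1 × D1` and `C2 × D2` the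
invariant sets, `NB` the pairs which are not exchanged in `β` -/
def chk (r : Bool) (k i : ℕ) (P N : List Bit) (κ : Bit) (f0 : List ℕ)
    (NB : List (ℕ × ℕ × List ℕ × List ℕ)) (x' y : List ℕ) (C1 D1 C2 D2 : List (List ℕ)) : Bool :=
  Nat.ble i k && Nat.ble 1 (ba r κ κ.k) && Nat.ble 2 ((List.range (κ.k + 1)).map (ba r κ)).sum &&
  decide (x' ∈ vls r k) && decide (y ∈ vls r k) &&
  decide (x' ∈ C1) && decide (y ∈ D1) && decide (x' ∈ C2) && decide (y ∈ D2) &&
  decide (f0 ∈ mps κ.k k) &&
  (List.range (k + 1)).all (fun j => Nat.ble (pss κ.k f0 (ba r κ) j) (rep x' j)) &&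
  clo r k P N C1 && clo r k P N D1 && clo r k P N C2 && clo r k P N D2 &&
  kap r k κ C2 && kap r k κ D2 && sup r k i (hv2 r k (rep f0 (bi r κ)) x') y C1 D1 &&
  bel r k i NB C1 D1 && bel r k i NB C2 D2 &&
  lst k i C1 && lst k i D1 && lst k i C2 && lst k i D2

end Pool.Agent.MWC
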